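import Pool.Agent.W734.STS.Stms

/-!
# Project STS, part ROT: the Sturmian measure exists
-/

set_option autoImplicit false

noncomputable section

namespace Pool.Agent.W351.STS

open MeasureTheory Filter Topology Set
open Pool.Agent.W734.STS

/-- the coding of the rotation -/
def cd (θ : ℝ) : Cf := fun n => if Int.fract (θ + n * phi) < phi then 0 else 1

lemma cd_periodic (θ : ℝ) (m : ℤ) : cd (θ + m) = cd θ := by
  funext n
  have : θ + m + n * phi = θ + n * phi + m := by ring
  simp only [cd, this, Int.fract_add_intCast]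

lemma shift_cd (a : ℤ) (θ : ℝ) : shift a (cd θ) = cd (θ + -(a * phi)) := by
  funext n
  have : θ + -(a * phi) + n * phi = θ + ((n - a : ℤ) : ℝ) * phi := by push_cast; ring
  simp only [shift, cd, this]

lemma shift_sturm (a : ℤ) : shift a (sturm phi) = cd (-(a * phi)) := by
  have h : sturm phi = cd 0 := by
    funext n
    simp [sturm, cd]
  rw [h, shift_cd, zero_add]

lemma measurable_cd : Measurable cd := by
  rw [measurable_pi_iff]
  intro n
  refine Measurable.ite ?_ measurable_const measurable_const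
  exact measurableSet_lt (measurable_fract.comp (by fun_prop)) measurable_const

lemma measurable_shift (a : ℤ) : Measurable (shift a) := by
  rw [measurable_pi_iff]
  intro n
  exact measurable_pi_apply _

/-- the coding is continuous from the right -/
lemma tendsto_cd (θ : ℝ) : Tendsto cd (𝓝[>] θ) (𝓝 (cd θ)) := by
  rw [tendsto_pi_nhds]
  intro n
  refine tendsto_const_nhds.congr' ?_
  set y := θ + n * phi with hy
  have h1 : 0 < (⌊y⌋ : ℝ) + 1 - y := by linarith [Int.lt_floor_add_one y]
  have h2 : ∀ᶠ x in 𝓝[>] θ, x < θ + ((⌊y⌋ : ℝ) + 1 - y) := by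
    filter_upwards [Ioo_mem_nhdsGT (show θ < θ + ((⌊y⌋ : ℝ) + 1 - y) by linarith)] with x hx
    exact hx.2
  have hfr : ∀ x, θ < x → x < θ + ((⌊y⌋ : ℝ) + 1 - y) →
      Int.fract (x + n * phi) = Int.fract y + (x - θ) := by
    intro x hx1 hx2
    have hfl : ⌊x + n * phi⌋ = ⌊y⌋ := by
      rw [Int.floor_eq_iff]
      have := Int.floor_le y
      constructor
      · rw [hy] at this ⊢; linarith
      · rw [hy] at hx2 ⊢; linarith
    rw [Int.fract, hfl, Int.fract, hy]
    ring
  by_cases hlt : Int.fract y < phi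
  · have h3 : ∀ᶠ x in 𝓝[>] θ, x < θ + (phi - Int.fract y) := by
      filter_upwards [Ioo_mem_nhdsGT (show θ < θ + (phi - Int.fract y) by linarith)] with x hx
      exact hx.2
    filter_upwards [h2, h3, self_mem_nhdsWithin] with x hx2 hx3 hx1
    have e := hfr x hx1 hx2
    simp only [cd]
    rw [← hy, if_pos hlt, e, if_pos (by linarith)]
  · filter_upwards [h2, self_mem_nhdsWithin] with x hx2 hx1
    have e := hfr x hx1 hx2
    have hx1' : θ < x := hx1
    simp only [cd]
    rw [← hy, if_neg hlt, e, if_neg (by linarith)]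

lemma irr : Irrational phi := by
  have h : phi = (2 : ℚ) - Real.goldenRatio := by
    unfold phi Real.goldenRatio
    push_cast
    ring
  rw [h]
  exact Real.goldenRatio_irrational.ratCast_sub 2

lemma cd_mem (θ : ℝ) : cd θ ∈ GSt phi := by
  refine mem_closure_of_frequently_of_tendsto ?_ (tendsto_cd θ)
  rw [frequently_iff]
  intro U hU
  obtain ⟨v, hv, hvU⟩ := (mem_nhdsGT_iff_exists_Ioo_subset).1 hU
  have hd : Dense (AddSubgroup.closure {phi, 1} : Set ℝ) := by
    rw [dense_addSubgroupClosure_pair_iff, div_one]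
    exact irr
  obtain ⟨z, hz, hz2⟩ := hd.exists_between (show θ < v from hv)
  refine ⟨z, hvU hz2, ?_⟩
  have hz' : z ∈ AddSubgroup.closure {phi, 1} := hz
  rw [AddSubgroup.mem_closure_pair] at hz'
  obtain ⟨m, n, hmn⟩ := hz'
  refine ⟨-m, ?_⟩
  rw [shift_sturm, ← hmn]
  have : m • phi + n • (1 : ℝ) = -(((-m : ℤ) : ℝ) * phi) + (n : ℤ) := by
    push_cast
    simp [zsmul_eq_mul]
  rw [this, cd_periodic]

/-- the measure -/
def rho : Measure Cf := (volume.restrict (Ioc (0 : ℝ) 1)).map cd

lemma key (a : ℤ) (E : Set Cf) (hE : MeasurableSet E) :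
    volume ({θ : ℝ | cd (θ + -(a * phi)) ∈ E} ∩ Ioc 0 1) = volume (cd ⁻¹' E ∩ Ioc 0 1) := by
  have hA : MeasurableSet (cd ⁻¹' E) := measurable_cd hE
  have h1 : {θ : ℝ | cd (θ + -(a * phi)) ∈ E} ∩ Ioc 0 1 =
      (fun θ => θ + -(a * phi)) ⁻¹' (cd ⁻¹' E ∩ Ioc (-(a * phi)) (-(a * phi) + 1)) := by
    ext θ
    simp only [mem_inter_iff, mem_ofPred_eq, mem_preimage, mem_Ioc]
    constructor
    · rintro ⟨h1, h2, h3⟩
      exact ⟨h1, by linarith, by linarith⟩
    · rintro ⟨h1, h2, h3⟩
      exact ⟨h1, by linarith, by linarith⟩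
  rw [h1, measure_preimage_add_right]
  have h2 := (isAddFundamentalDomain_Ioc (T := (1 : ℝ)) one_pos (-(a * phi)) volume).measure_set_eq
    (isAddFundamentalDomain_Ioc (T := (1 : ℝ)) one_pos 0 volume) hA (by
      rintro ⟨g, hg⟩
      obtain ⟨m, rfl⟩ := AddSubgroup.mem_zmultiples_iff.1 hg
      ext θ
      simp only [mem_preimage]
      have : (⟨m • (1 : ℝ), hg⟩ : AddSubgroup.zmultiples (1 : ℝ)) +ᵥ θ = θ + m := by
        show m • (1 : ℝ) + θ = θ + m
        simp [zsmul_eq_mul, add_comm]
      rw [this, cd_periodic])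
  rw [h2, zero_add]

theorem rot : S_ROT := by
  have hp : IsProbabilityMeasure (volume.restrict (Ioc (0 : ℝ) 1)) := ⟨by simp⟩
  refine ⟨rho, ⟨?_, fun a => ⟨measurable_shift a, ?_⟩⟩, ?_⟩
  · exact Measure.isProbabilityMeasure_map measurable_cd.aemeasurable
  · unfold rho
    rw [Measure.map_map (measurable_shift a) measurable_cd]
    ext E hE
    rw [Measure.map_apply ((measurable_shift a).comp measurable_cd) hE,
      Measure.map_apply measurable_cd hE,
      Measure.restrict_apply (((measurable_shift a).comp measurable_cd) hE),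
      Measure.restrict_apply (measurable_cd hE), ← key a E hE]
    congr 1
    ext θ
    simp only [mem_inter_iff, mem_preimage, Function.comp_apply, mem_ofPred_eq, shift_cd]
  · unfold rho
    rw [ae_map_iff measurable_cd.aemeasurable]
    · exact Eventually.of_forall fun θ => cd_mem θ
    · exact isClosed_closure.measurableSet

end Pool.Agent.W351.STS
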